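import Mathlib

/-!
Resolution refutations and their depth.
-/

set_option autoImplicit false

namespace Pool.Agent.Lib.MP_0e79d0_lc.Depth

/-- A refutation of the set of clauses `F` in dag-like resolution with weakening. A clause is a
finite set of literals, where the literal `(v, b)` is true under the assignment `z` when
`z v = b`. Each line is a weakening of a clause of `F`, or a weakening of an earlier line, or a
weakening of a resolvent of two earlier lines; clauses may be used any number of times and a
variable may be resolved any number of times along a path. The numbers `depth i` strictly increase
at resolution steps and do not decrease at weakening steps; so if `depth i ≤ D` for all `i` then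
every path contains at most `D` resolution steps, and conversely the maximal number of resolution
steps on the paths that lead to line `i` is a possible choice for `depth i`. -/
structure Refutation {V : Type} [DecidableEq V] (F : Set (Finset (V × Bool))) where
  /-- the number of lines -/
  size : ℕ
  /-- the lines -/
  line : Fin size → Finset (V × Bool)
  /-- the depth of the lines -/
  depth : Fin size → ℕ
  step : ∀ i, (∃ C ∈ F, C ⊆ line i) ∨
    (∃ j, j < i ∧ depth j ≤ depth i ∧ line j ⊆ line i) ∨
    (∃ j l v, j < i ∧ l < i ∧ depth j < depth i ∧ depth l < depth i ∧
      line j ⊆ insert (v, true) (line i) ∧ line l ⊆ insert (v, false) (line i))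
  refutes : ∃ i, line i = ∅

end Pool.Agent.Lib.MP_0e79d0_lc.Depth
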