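import Mathlib
import Pool.Agent.Lib.MP_0e79d0_lc.Depth.Defs

section

/-!
Matching pigeons to holes one at a time while keeping Hall's condition for small sets.
-/

set_option autoImplicit false

namespace Pool.Agent.Lib.MP_0e79d0_lc.Depth

open Finset

section

variable {P H Q : Type} [DecidableEq H] [Fintype Q]

/-- The holes available to the pigeons in `J`. -/
def nbr (t : P → Q → H) (J : Finset P) : Finset H :=
  J.biUnion fun i => univ.image (t i)

lemma nbr_mono (t : P → Q → H) {J J' : Finset P} (h : J ⊆ J') : nbr t J ⊆ nbr t J' :=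
  biUnion_subset_biUnion_of_subset_left _ h

lemma mem_nbr {t : P → Q → H} {J : Finset P} {h : H} :
    h ∈ nbr t J ↔ ∃ i ∈ J, ∃ a, t i a = h := by
  simp [nbr]

variable [DecidableEq P]

lemma nbr_union (t : P → Q → H) (J J' : Finset P) : nbr t (J ∪ J') = nbr t J ∪ nbr t J' := by
  ext h
  simp only [mem_nbr, mem_union]
  constructor
  · rintro ⟨i, hi | hi, a, ha⟩
    · exact Or.inl ⟨i, hi, a, ha⟩
    · exact Or.inr ⟨i, hi, a, ha⟩
  · rintro (⟨i, hi, a, ha⟩ | ⟨i, hi, a, ha⟩)
    · exact ⟨i, Or.inl hi, a, ha⟩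
    · exact ⟨i, Or.inr hi, a, ha⟩

/-- Hall's condition for the sets of at most `B` pigeons outside `C`, once the holes in `O` are
used. -/
def HallOn (t : P → Q → H) (B : ℕ) (C : Finset P) (O : Finset H) : Prop :=
  ∀ J : Finset P, Disjoint J C → J.card ≤ B → J.card ≤ (nbr t J \ O).card

/-- Sets of `b` pigeons have neighbours outside every set of at most `y` holes. -/
def Spread (t : P → Q → H) (b y : ℕ) : Prop :=
  ∀ J : Finset P, ∀ Y : Finset H, J.card = b → Y.card ≤ y → ¬ nbr t J ⊆ Y

omit [DecidableEq P] in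
lemma tight_small {t : P → Q → H} {b y : ℕ} (hs : Spread t b y) {O : Finset H}
    (hO : O.card + 2 * b ≤ y) {J : Finset P} (hJ : J.card ≤ 2 * b)
    (ht : (nbr t J \ O).card = J.card) : J.card < b := by
  by_contra hcon
  push Not at hcon
  obtain ⟨J', hJ', hc⟩ := exists_subset_card_eq hcon
  refine hs J' (O ∪ (nbr t J \ O)) hc ?_ ?_
  · calc (O ∪ (nbr t J \ O)).card ≤ O.card + (nbr t J \ O).card := card_union_le _ _
      _ ≤ y := by omega
  · refine (nbr_mono t hJ').trans ?_
    intro h hh
    by_cases h' : h ∈ O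
    · exact mem_union_left _ h'
    · exact mem_union_right _ (mem_sdiff.2 ⟨hh, h'⟩)

lemma tight_union {t : P → Q → H} {b : ℕ} {C : Finset P} {O : Finset H}
    (h5 : HallOn t (2 * b) C O) {J J' : Finset P} (hJ : Disjoint J C) (hJ' : Disjoint J' C)
    (h1 : J.card < b) (h2 : J'.card < b) (ht : (nbr t J \ O).card = J.card)
    (ht' : (nbr t J' \ O).card = J'.card) :
    (nbr t (J ∪ J') \ O).card = (J ∪ J').card := by
  have hu : (J ∪ J').card ≤ 2 * b := (card_union_le _ _).trans (by omega)
  have hi : (J ∩ J').card ≤ 2 * b := (card_le_card inter_subset_left).trans (by omega)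
  have e1 := h5 (J ∪ J') (disjoint_union_left.2 ⟨hJ, hJ'⟩) hu
  have e2 := h5 (J ∩ J') (disjoint_of_subset_left inter_subset_left hJ) hi
  have e3 : (nbr t (J ∪ J') \ O).card + (nbr t (J ∩ J') \ O).card
      ≤ (nbr t J \ O).card + (nbr t J' \ O).card := by
    rw [nbr_union, union_sdiff_distrib]
    have : nbr t (J ∩ J') \ O ⊆ (nbr t J \ O) ∩ (nbr t J' \ O) := by
      intro h hh
      rw [mem_sdiff] at hh
      exact mem_inter.2 ⟨mem_sdiff.2 ⟨nbr_mono t inter_subset_left hh.1, hh.2⟩,
        mem_sdiff.2 ⟨nbr_mono t inter_subset_right hh.1, hh.2⟩⟩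
    have h4 := card_le_card this
    have h5' := card_union_add_card_inter (nbr t J \ O) (nbr t J' \ O)
    omega
  have e4 := card_union_add_card_inter J J'
  omega

/-- A further pigeon can be given a hole. -/
theorem commit {t : P → Q → H} {b y : ℕ} (hb : 1 ≤ b) (hs : Spread t b y) {C : Finset P}
    {O : Finset H} (hO : O.card + 2 * b ≤ y) (h5 : HallOn t (2 * b) C O) {i₀ : P} (hi : i₀ ∉ C) :
    ∃ a : Q, t i₀ a ∉ O ∧ HallOn t (2 * b) (insert i₀ C) (insert (t i₀ a) O) := by
  classical
  by_contra hcon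
  push Not at hcon
  -- every symbol with a free hole has a tight set whose neighbourhood contains this hole
  have key : ∀ a : Q, t i₀ a ∉ O → ∃ J : Finset P, Disjoint J (insert i₀ C) ∧ J.card < b ∧
      (nbr t J \ O).card = J.card ∧ t i₀ a ∈ nbr t J \ O := by
    intro a ha
    have h := hcon a ha
    simp only [HallOn] at h
    push Not at h
    obtain ⟨J, hJ, hJb, hlt⟩ := h
    have hJC : Disjoint J C := disjoint_of_subset_right (subset_insert _ _) hJ
    have h1 := h5 J hJC hJb
    have hmem : t i₀ a ∈ nbr t J \ O := by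
      by_contra hn
      have : nbr t J \ insert (t i₀ a) O = nbr t J \ O := by
        rw [sdiff_insert, erase_eq_of_notMem hn]
      rw [this] at hlt
      omega
    have hc : (nbr t J \ insert (t i₀ a) O).card = (nbr t J \ O).card - 1 := by
      rw [sdiff_insert, card_erase_of_mem hmem]
    have ht : (nbr t J \ O).card = J.card := by
      have : 0 < (nbr t J \ O).card := card_pos.2 ⟨_, hmem⟩
      omega
    exact ⟨J, hJ, tight_small hs hO hJb ht, ht, hmem⟩
  -- take the union of all these sets
  have uni : ∀ A : Finset Q, ∃ J : Finset P, Disjoint J (insert i₀ C) ∧ J.card < b ∧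
      (nbr t J \ O).card = J.card ∧ ∀ a ∈ A, t i₀ a ∈ O ∨ t i₀ a ∈ nbr t J \ O := by
    intro A
    induction A using Finset.induction_on with
    | empty => exact ⟨∅, by simp, by rw [card_empty]; omega, by simp [nbr], by simp⟩
    | insert a A ha ih =>
      obtain ⟨J, hJ, hJb, ht, hA⟩ := ih
      by_cases hao : t i₀ a ∈ O
      · refine ⟨J, hJ, hJb, ht, fun c hc => ?_⟩
        rcases mem_insert.1 hc with rfl | hc
        · exact Or.inl hao
        · exact hA c hc
      · obtain ⟨J', hJ', hJb', ht', hm⟩ := key a hao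
        have hJC : Disjoint J C := disjoint_of_subset_right (subset_insert _ _) hJ
        have hJC' : Disjoint J' C := disjoint_of_subset_right (subset_insert _ _) hJ'
        have htu := tight_union h5 hJC hJC' hJb hJb' ht ht'
        refine ⟨J ∪ J', disjoint_union_left.2 ⟨hJ, hJ'⟩, ?_, htu, fun c hc => ?_⟩
        · exact tight_small hs hO ((card_union_le _ _).trans (by omega)) htu
        · have sub1 : nbr t J \ O ⊆ nbr t (J ∪ J') \ O :=
            sdiff_subset_sdiff (nbr_mono t subset_union_left) subset_rfl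
          have sub2 : nbr t J' \ O ⊆ nbr t (J ∪ J') \ O :=
            sdiff_subset_sdiff (nbr_mono t subset_union_right) subset_rfl
          rcases mem_insert.1 hc with rfl | hc
          · exact Or.inr (sub2 hm)
          · rcases hA c hc with h | h
            · exact Or.inl h
            · exact Or.inr (sub1 h)
  obtain ⟨J, hJ, hJb, ht, hA⟩ := uni univ
  have hi0 : i₀ ∉ J := fun h => (disjoint_left.1 hJ h) (mem_insert_self _ _)
  have hJC : Disjoint J C := disjoint_of_subset_right (subset_insert _ _) hJ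
  have hdis : Disjoint (insert i₀ J) C := disjoint_insert_left.2 ⟨hi, hJC⟩
  have h1 := h5 (insert i₀ J) hdis (by rw [card_insert_of_notMem hi0]; omega)
  rw [card_insert_of_notMem hi0] at h1
  have h2 : nbr t (insert i₀ J) \ O ⊆ nbr t J \ O := by
    intro h hh
    rw [mem_sdiff, mem_nbr] at hh
    obtain ⟨⟨i, hi', a, rfl⟩, hn⟩ := hh
    rcases mem_insert.1 hi' with rfl | hi'
    · rcases hA a (mem_univ _) with h | h
      · exact absurd h hn
      · exact h
    · exact mem_sdiff.2 ⟨mem_nbr.2 ⟨i, hi', a, rfl⟩, hn⟩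
  have h3 := card_le_card h2
  omega

/-- Pigeons can be released. -/
theorem release {t : P → Q → H} {B : ℕ} {C C' : Finset P} {f : P → H}
    (hf : ∀ i, ∃ a, t i a = f i) (hinj : Set.InjOn f C) (hC : C' ⊆ C)
    (h5 : HallOn t B C (C.image f)) : HallOn t B C' (C'.image f) := by
  intro J hJ hJB
  have h1 := h5 (J \ C) sdiff_disjoint ((card_le_card sdiff_subset).trans hJB)
  have h2 : (nbr t (J \ C) \ C.image f) ∪ (J ∩ C).image f ⊆ nbr t J \ C'.image f := by
    intro h hh
    rcases mem_union.1 hh with hh | hh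
    · rw [mem_sdiff] at hh ⊢
      exact ⟨nbr_mono t sdiff_subset hh.1, fun h' => hh.2 (image_subset_image hC h')⟩
    · obtain ⟨i, hi, rfl⟩ := mem_image.1 hh
      rw [mem_inter] at hi
      obtain ⟨a, ha⟩ := hf i
      refine mem_sdiff.2 ⟨mem_nbr.2 ⟨i, hi.1, a, ha⟩, fun h' => ?_⟩
      obtain ⟨j, hj, hji⟩ := mem_image.1 h'
      have : j = i := hinj (hC hj) hi.2 hji
      subst this
      exact disjoint_left.1 hJ hi.1 hj
  have h3 : Disjoint (nbr t (J \ C) \ C.image f) ((J ∩ C).image f) := by
    rw [disjoint_left]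
    intro h hh hh'
    rw [mem_sdiff] at hh
    obtain ⟨i, hi, rfl⟩ := mem_image.1 hh'
    exact hh.2 (mem_image_of_mem f (mem_inter.1 hi).2)
  have h4 := card_le_card h2
  rw [card_union_of_disjoint h3, card_image_of_injOn (hinj.mono (by
    intro x hx
    exact (mem_inter.1 (mem_coe.1 hx)).2))] at h4
  have h6 : (J \ C).card + (J ∩ C).card = J.card := card_sdiff_add_card_inter J C
  omega

end

end Pool.Agent.Lib.MP_0e79d0_lc.Depth
end

section

/-!
If every assignment is close to one that falsifies a long line then there are many lines.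
-/

set_option autoImplicit false

namespace Pool.Agent.Lib.MP_0e79d0_lc.Depth

open Finset

variable {V : Type} [Fintype V] [DecidableEq V]

/-- The number of assignments close to the subcube falsifying a clause of width at least `W`. -/
lemma card_near {a : ℝ} (ha : 1 ≤ a) {D : Finset (V × Bool)} {W E : ℕ} (hW : W ≤ D.card)
    (A : Finset (V → Bool))
    (hA : ∀ α ∈ A, ∃ z : V → Bool, (∀ l ∈ D, z l.1 ≠ l.2) ∧
      (univ.filter fun v => z v ≠ α v).card ≤ E) :
    (A.card : ℝ) * 2 ^ W ≤ 2 ^ Fintype.card V * (1 + 1 / a) ^ W * a ^ E := by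
  have ha0 : 0 < a := by linarith
  rcases A.eq_empty_or_nonempty with rfl | ⟨α₀, hα₀⟩
  · simp only [card_empty, Nat.cast_zero, zero_mul]
    positivity
  obtain ⟨z₀, hz₀, -⟩ := hA α₀ hα₀
  have ha1 : 1 / a ≤ 1 := by rw [div_le_one ha0]; exact ha
  have hapos : 0 < 1 / a := by positivity
  let f : V → Bool → ℝ := fun v x => if (v, x) ∈ D then 1 / a else 1
  -- the variables of D
  have hinj : Set.InjOn Prod.fst (D : Set (V × Bool)) := by
    intro l hl l' hl' h
    have h1 := hz₀ l hl
    have h2 := hz₀ l' hl'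
    rw [← h] at h2
    refine Prod.ext h ?_
    cases h3 : z₀ l.1 <;> rw [h3] at h1 h2 <;> simp_all
  have hvars : (D.image Prod.fst).card = D.card := card_image_of_injOn hinj
  have hDV : D.card ≤ Fintype.card V := by
    rw [← hvars]
    exact card_le_univ _
  have hsum : ∀ v, ∑ x, f v x = if v ∈ D.image Prod.fst then 1 + 1 / a else 2 := by
    intro v
    rw [Fintype.sum_bool]
    split_ifs with hv
    · obtain ⟨⟨v', x⟩, hl, rfl⟩ := mem_image.1 hv
      have h1 := hz₀ _ hl
      simp only [f]
      cases x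
      · have h2 : (v', true) ∉ D := by
          intro h
          have h2 := hz₀ _ h
          simp_all
        rw [if_neg h2, if_pos hl]
      · have h2 : (v', false) ∉ D := by
          intro h
          have h2 := hz₀ _ h
          simp_all
        rw [if_neg h2, if_pos hl]
        ring
    · have h1 : ∀ x, (v, x) ∉ D := fun x h => hv (mem_image.2 ⟨_, h, rfl⟩)
      simp only [f, if_neg (h1 _)]
      norm_num
  have htotal : ∑ α : V → Bool, ∏ v, f v (α v) =
      (1 + 1 / a) ^ D.card * 2 ^ (Fintype.card V - D.card) := by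
    have := Finset.prod_univ_sum (fun _ : V => (univ : Finset Bool)) f
    rw [Fintype.piFinset_univ] at this
    rw [← this, prod_congr rfl fun v _ => hsum v, prod_ite, prod_const, prod_const]
    congr 2
    · rw [← hvars]
      congr 1
      ext v
      simp
    · rw [← hvars, ← card_compl]
      congr 1
      ext v
      simp
  have hbig : ∀ α ∈ A, (1 / a) ^ E ≤ ∏ v, f v (α v) := by
    intro α hα
    obtain ⟨z, hz, hd⟩ := hA α hα
    have h1 : ∏ v, f v (α v) = (1 / a) ^ (univ.filter fun v => (v, α v) ∈ D).card := by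
      simp only [f]
      rw [prod_ite, prod_const, prod_const_one, mul_one]
    rw [h1]
    refine pow_le_pow_of_le_one hapos.le ha1 ((card_le_card ?_).trans hd)
    intro v hv
    exact mem_filter.2 ⟨mem_univ _, hz _ (mem_filter.1 hv).2⟩
  have h1 : (A.card : ℝ) * (1 / a) ^ E ≤ (1 + 1 / a) ^ D.card * 2 ^ (Fintype.card V - D.card) := by
    rw [← htotal, ← nsmul_eq_mul, ← sum_const]
    refine (sum_le_sum hbig).trans ?_
    refine sum_le_sum_of_subset_of_nonneg (subset_univ _) fun α _ _ => ?_
    refine prod_nonneg fun v _ => ?_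
    simp only [f]
    split_ifs <;> positivity
  have h2 : (1 + 1 / a) ^ D.card * 2 ^ (Fintype.card V - D.card) * 2 ^ W ≤
      2 ^ Fintype.card V * (1 + 1 / a) ^ W := by
    obtain ⟨m, hm⟩ := Nat.exists_eq_add_of_le hW
    obtain ⟨m', hm'⟩ := Nat.exists_eq_add_of_le hDV
    have h3 : (1 + 1 / a) ^ m ≤ (2 : ℝ) ^ m := pow_le_pow_left₀ (by positivity) (by linarith) m
    rw [hm', Nat.add_sub_cancel_left, hm]
    calc (1 + 1 / a) ^ (W + m) * 2 ^ m' * 2 ^ W
        = (1 + 1 / a) ^ m * ((1 + 1 / a) ^ W * 2 ^ m' * 2 ^ W) := by ring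
      _ ≤ 2 ^ m * ((1 + 1 / a) ^ W * 2 ^ m' * 2 ^ W) :=
          mul_le_mul_of_nonneg_right h3 (by positivity)
      _ = 2 ^ (W + m + m') * (1 + 1 / a) ^ W := by ring
  have h3 : (A.card : ℝ) * (1 / a) ^ E * 2 ^ W ≤ 2 ^ Fintype.card V * (1 + 1 / a) ^ W :=
    (mul_le_mul_of_nonneg_right h1 (by positivity)).trans h2
  have h4 : (1 / a) ^ E * a ^ E = 1 := by
    rw [← mul_pow, one_div, inv_mul_cancel₀ ha0.ne', one_pow]
  calc (A.card : ℝ) * 2 ^ W = (A.card : ℝ) * (1 / a) ^ E * 2 ^ W * a ^ E := by
        rw [mul_assoc (A.card : ℝ), mul_assoc (A.card : ℝ), mul_comm ((1 / a) ^ E),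
          mul_assoc (2 ^ W), h4, mul_one]
    _ ≤ 2 ^ Fintype.card V * (1 + 1 / a) ^ W * a ^ E :=
        mul_le_mul_of_nonneg_right h3 (by positivity)

/-- Many lines. -/
theorem counting {F : Set (Finset (V × Bool))} (R : Refutation F) {a : ℝ} (ha : 1 ≤ a) {W E : ℕ}
    (h : ∀ α : V → Bool, ∃ i, ∃ z : V → Bool, (∀ l ∈ R.line i, z l.1 ≠ l.2) ∧
      W ≤ (R.line i).card ∧ (univ.filter fun v => z v ≠ α v).card ≤ E) :
    (2 : ℝ) ^ W ≤ R.size * ((1 + 1 / a) ^ W * a ^ E) := by
  classical
  have ha0 : 0 < a := by linarith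
  choose I hI using h
  have h1 : (Fintype.card (V → Bool) : ℝ) * 2 ^ W ≤
      R.size * (2 ^ Fintype.card V * (1 + 1 / a) ^ W * a ^ E) := by
    have h2 : Fintype.card (V → Bool) = ∑ i : Fin R.size,
        (univ.filter fun α : V → Bool => I α = i).card := by
      rw [← card_univ]
      exact card_eq_sum_card_fiberwise fun α _ => mem_univ (I α)
    rw [h2]
    push_cast
    rw [sum_mul]
    calc ∑ i : Fin R.size, ((univ.filter fun α : V → Bool => I α = i).card : ℝ) * 2 ^ W
        ≤ ∑ _i : Fin R.size, 2 ^ Fintype.card V * (1 + 1 / a) ^ W * a ^ E := by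
          refine sum_le_sum fun i _ => ?_
          rcases (univ.filter fun α : V → Bool => I α = i).eq_empty_or_nonempty with he | ⟨α, hα⟩
          · rw [he, card_empty, Nat.cast_zero, zero_mul]
            positivity
          · have hα' : I α = i := (mem_filter.1 hα).2
            obtain ⟨z, -, hW, -⟩ := hI α
            rw [hα'] at hW
            refine card_near ha hW _ fun β hβ => ?_
            obtain ⟨z, hz, -, hE⟩ := hI β
            rw [(mem_filter.1 hβ).2] at hz
            exact ⟨z, hz, hE⟩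
      _ = R.size * (2 ^ Fintype.card V * (1 + 1 / a) ^ W * a ^ E) := by
          rw [sum_const, card_univ, Fintype.card_fin, nsmul_eq_mul]
  have h2 : (Fintype.card (V → Bool) : ℝ) = 2 ^ Fintype.card V := by
    rw [Fintype.card_fun, Fintype.card_bool]
    push_cast
    rfl
  rw [h2] at h1
  have h3 : (0 : ℝ) < 2 ^ Fintype.card V := by positivity
  refine le_of_mul_le_mul_left ?_ h3
  calc (2 : ℝ) ^ Fintype.card V * 2 ^ W ≤ _ := h1
    _ = 2 ^ Fintype.card V * (R.size * ((1 + 1 / a) ^ W * a ^ E)) := by ring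

end Pool.Agent.Lib.MP_0e79d0_lc.Depth
end

section

/-!
Sparse graphs between `N + 1` pigeons and `N` holes with Hall's condition for small sets of
pigeons, in which sets of `b` pigeons see almost all holes.
-/

set_option autoImplicit false

namespace Pool.Agent.Lib.MP_0e79d0_lc.Depth

open Finset

/-- The union bound. -/
theorem exists_spread {P H : Type} [Fintype P] [DecidableEq P] [Fintype H] [DecidableEq H]
    {r b y : ℕ} (hy : y ≤ Fintype.card H) (hb : b ≤ Fintype.card P)
    (hH : 0 < Fintype.card H)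
    (h : (Fintype.card P).choose b * (Fintype.card H).choose y * y ^ (r * b) <
      Fintype.card H ^ (r * b)) :
    ∃ τ : P → Fin r → H, Spread τ b y := by
  classical
  -- the maps sending `J` into `Y`
  let bad : Finset P × Finset H → Finset (P → Fin r → H) := fun p =>
    Fintype.piFinset fun i => if i ∈ p.1 then Fintype.piFinset (fun _ => p.2) else univ
  have hbad : ∀ p : Finset P × Finset H, p.1.card = b → p.2.card = y →
      (bad p).card = y ^ (r * b) * Fintype.card H ^ (r * (Fintype.card P - b)) := by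
    intro p h1 h2
    simp only [bad, Fintype.card_piFinset]
    have : ∀ i : P, (if i ∈ p.1 then Fintype.piFinset (fun _ : Fin r => p.2) else univ :
        Finset (Fin r → H)).card = if i ∈ p.1 then y ^ r else Fintype.card H ^ r := by
      intro i
      split_ifs
      · rw [Fintype.card_piFinset]
        simp [h2]
      · rw [card_univ]
        simp
    rw [prod_congr rfl (fun i _ => this i), prod_ite]
    simp only [prod_const]
    have e1 : (univ.filter fun i => i ∈ p.1).card = b := by
      rw [← h1]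
      congr 1
      ext i
      simp
    have e2 : (univ.filter fun i => i ∉ p.1).card = Fintype.card P - b := by
      rw [← h1, ← card_compl]
      congr 1
      ext i
      simp
    rw [e1, e2, ← pow_mul, ← pow_mul]
  let idx := (powersetCard b (univ : Finset P)) ×ˢ (powersetCard y (univ : Finset H))
  have hlt : (idx.biUnion bad).card < (univ : Finset (P → Fin r → H)).card := by
    calc (idx.biUnion bad).card ≤ ∑ p ∈ idx, (bad p).card := card_biUnion_le
      _ = ∑ p ∈ idx, y ^ (r * b) * Fintype.card H ^ (r * (Fintype.card P - b)) := by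
          refine sum_congr rfl fun p hp => ?_
          rw [mem_product, mem_powersetCard, mem_powersetCard] at hp
          exact hbad p hp.1.2 hp.2.2
      _ = (Fintype.card P).choose b * (Fintype.card H).choose y * y ^ (r * b) *
            Fintype.card H ^ (r * (Fintype.card P - b)) := by
          rw [sum_const, card_product, card_powersetCard, card_powersetCard, card_univ, card_univ,
            smul_eq_mul]
          ring
      _ < Fintype.card H ^ (r * b) * Fintype.card H ^ (r * (Fintype.card P - b)) :=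
          Nat.mul_lt_mul_of_pos_right h (pow_pos hH _)
      _ = (univ : Finset (P → Fin r → H)).card := by
          rw [← pow_add, ← mul_add, Nat.add_sub_cancel' hb, card_univ]
          simp [pow_mul]
  obtain ⟨τ, -, hτ⟩ := exists_mem_notMem_of_card_lt_card hlt
  refine ⟨τ, fun J Y hJ hY hsub => hτ ?_⟩
  obtain ⟨Y', hYY', -, hY'⟩ := exists_subsuperset_card_eq (subset_univ Y) hY
    (by rwa [card_univ])
  rw [mem_biUnion]
  refine ⟨(J, Y'), ?_, ?_⟩
  · simp only [idx, mem_product, mem_powersetCard]
    exact ⟨⟨subset_univ _, hJ⟩, subset_univ _, hY'⟩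
  · simp only [bad, Fintype.mem_piFinset]
    intro i
    split_ifs with hi
    · rw [Fintype.mem_piFinset]
      intro a
      exact hYY' (hsub (mem_nbr.2 ⟨i, hi, a, rfl⟩))
    · exact mem_univ _

/-- Two deterministic options give Hall's condition. -/
theorem hall_det {N r : ℕ} [NeZero N] (τ : Fin (N + 1) → Fin r → ZMod N)
    {B : ℕ} (hB : B < N) :
    HallOn (fun i : Fin (N + 1) => (Fin.cons ((i : ℕ) : ZMod N) (Fin.cons (((i : ℕ) : ZMod N) + 1) (τ i)) :
      Fin (r + 1 + 1) → ZMod N)) B ∅ ∅ := by
  classical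
  intro J _ hJB
  set t : Fin (N + 1) → Fin (r + 1 + 1) → ZMod N :=
    fun i : Fin (N + 1) => (Fin.cons ((i : ℕ) : ZMod N) (Fin.cons (((i : ℕ) : ZMod N) + 1) (τ i)) :
      Fin (r + 1 + 1) → ZMod N) with ht
  have t0 : ∀ i, t i 0 = ((i : ℕ) : ZMod N) := fun i => rfl
  have t1 : ∀ i, t i 1 = ((i : ℕ) : ZMod N) + 1 := fun i => rfl
  rw [sdiff_empty]
  let J0 : Finset (ZMod N) := (J.erase (Fin.last N)).image fun i : Fin (N + 1) =>
    ((i : ℕ) : ZMod N)
  have hinj : Set.InjOn (fun i : Fin (N + 1) => ((i : ℕ) : ZMod N)) (J.erase (Fin.last N)) := by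
    intro i hi j hj hij
    have hi' : (i : ℕ) < N := by
      have : i ≠ Fin.last N := (mem_erase.1 (mem_coe.1 hi)).1
      exact Fin.val_lt_last this
    have hj' : (j : ℕ) < N := by
      have : j ≠ Fin.last N := (mem_erase.1 (mem_coe.1 hj)).1
      exact Fin.val_lt_last this
    have h1 := congrArg ZMod.val hij
    simp only [ZMod.val_natCast, Nat.mod_eq_of_lt hi', Nat.mod_eq_of_lt hj'] at h1
    exact Fin.ext h1
  have hJ0 : J0.card = (J.erase (Fin.last N)).card := card_image_of_injOn hinj
  have hsub0 : J0 ⊆ nbr t J := by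
    intro h hh
    obtain ⟨i, hi, rfl⟩ := mem_image.1 hh
    exact mem_nbr.2 ⟨i, (mem_erase.1 hi).2, 0, t0 i⟩
  have hsub1 : ∀ x ∈ J0, x + 1 ∈ nbr t J := by
    intro h hh
    obtain ⟨i, hi, rfl⟩ := mem_image.1 hh
    exact mem_nbr.2 ⟨i, (mem_erase.1 hi).2, 1, t1 i⟩
  by_cases hl : Fin.last N ∈ J
  · rw [card_erase_of_mem hl] at hJ0
    rcases J0.eq_empty_or_nonempty with he | ⟨x0, hx0⟩
    · rw [he, card_empty] at hJ0
      have : 0 < (nbr t J).card := card_pos.2 ⟨_, mem_nbr.2 ⟨_, hl, 0, rfl⟩⟩
      omega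
    · have hex : ∃ x ∈ J0, x + 1 ∉ J0 := by
        by_contra hcon
        push Not at hcon
        have hall : ∀ m : ℕ, x0 + (m : ZMod N) ∈ J0 := by
          intro m
          induction m with
          | zero => simpa using hx0
          | succ m ih =>
            have := hcon _ ih
            push_cast
            rwa [← add_assoc]
        have huniv : J0 = univ := by
          rw [eq_univ_iff_forall]
          intro y
          have := hall (y - x0).val
          rwa [ZMod.natCast_zmod_val, add_sub_cancel] at this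
        rw [huniv, card_univ, ZMod.card] at hJ0
        omega
      obtain ⟨x, hx, hx1⟩ := hex
      have h1 : insert (x + 1) J0 ⊆ nbr t J := insert_subset (hsub1 x hx) hsub0
      have h2 := card_le_card h1
      rw [card_insert_of_notMem hx1] at h2
      have : 0 < J.card := card_pos.2 ⟨_, hl⟩
      omega
  · rw [erase_eq_of_notMem hl] at hJ0
    rw [← hJ0]
    exact card_le_card hsub0

/-- The binomial theorem as an upper bound for binomial coefficients. -/
lemma choose_le_pow (M j : ℕ) {a : ℝ} (ha : 0 < a) :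
    (M.choose j : ℝ) ≤ Real.exp (M / a) * a ^ j := by
  rcases le_or_gt j M with hj | hj
  · have h1 : (M.choose j : ℝ) * (1 / a) ^ j ≤ (1 / a + 1) ^ M := by
      rw [add_pow]
      have := Finset.single_le_sum (f := fun m => (1 / a : ℝ) ^ m * 1 ^ (M - m) * (M.choose m : ℝ))
        (s := range (M + 1)) (fun m _ => by positivity) (mem_range.2 (Nat.lt_succ_of_le hj))
      simp only [one_pow, mul_one] at this ⊢
      linarith [mul_comm ((1 / a : ℝ) ^ j) (M.choose j : ℝ)]
    have h2 : (1 / a + 1) ^ M ≤ Real.exp (M / a) := by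
      have := pow_le_pow_left₀ (by positivity) (Real.add_one_le_exp (1 / a)) M
      rw [← Real.exp_nat_mul] at this
      rwa [mul_one_div] at this
    have h3 := h1.trans h2
    rw [one_div, inv_pow, ← div_eq_mul_inv, div_le_iff₀ (by positivity)] at h3
    exact h3
  · rw [Nat.choose_eq_zero_of_lt hj, Nat.cast_zero]
    positivity

/-- The parameters satisfy the union bound. -/
lemma numeric {l b : ℕ} (hl : 1 ≤ l) (hb : 1 ≤ b) :
    (2 * 2 ^ l * b + 1).choose b * (2 * 2 ^ l * b).choose (2 * b * (2 ^ l - 1)) *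
      (2 * b * (2 ^ l - 1)) ^ (2 ^ l * (5 + 3 * l) * b) <
      (2 * 2 ^ l * b) ^ (2 ^ l * (5 + 3 * l) * b) := by
  set a : ℕ := 2 ^ l with ha
  have ha2 : 2 ≤ a := by
    rw [ha]
    calc 2 = 2 ^ 1 := rfl
      _ ≤ 2 ^ l := Nat.pow_le_pow_right (by norm_num) hl
  have haR : (2 : ℝ) ≤ a := by exact_mod_cast ha2
  have hbR : (1 : ℝ) ≤ b := by exact_mod_cast hb
  set R : ℕ := a * (5 + 3 * l) * b with hR
  have hRR : (R : ℝ) = a * (5 + 3 * l) * b := by rw [hR]; push_cast; ring
  have e1 : ((2 * a * b + 1).choose b : ℝ) ≤ Real.exp (2 * b + 1 / 2) * (a : ℝ) ^ b := by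
    refine (choose_le_pow _ _ (a := (a : ℝ)) (by linarith)).trans ?_
    refine mul_le_mul_of_nonneg_right (Real.exp_le_exp.2 ?_) (by positivity)
    rw [div_le_iff₀ (by linarith)]
    push_cast
    nlinarith
  have e2 : ((2 * a * b).choose (2 * b * (a - 1)) : ℝ) ≤ Real.exp (2 * b) * (a : ℝ) ^ (2 * b) := by
    have : (2 * a * b).choose (2 * b * (a - 1)) = (2 * a * b).choose (2 * b) := by
      rw [← Nat.choose_symm (n := 2 * a * b) (k := 2 * b)]
      · congr 1
        obtain ⟨c, hc⟩ : ∃ c, a = c + 1 := ⟨a - 1, by omega⟩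
        rw [hc]
        simp only [Nat.add_sub_cancel]
        have : 2 * (c + 1) * b = 2 * b * c + 2 * b := by ring
        omega
      · nlinarith
    rw [this]
    refine (choose_le_pow _ _ (a := (a : ℝ)) (by linarith)).trans ?_
    refine mul_le_mul_of_nonneg_right (Real.exp_le_exp.2 ?_) (by positivity)
    rw [div_le_iff₀ (by linarith)]
    push_cast
    nlinarith
  have e3 : ((2 * b * (a - 1) : ℕ) : ℝ) ^ R ≤ Real.exp (-((5 + 3 * l) * b)) *
      ((2 * a * b : ℕ) : ℝ) ^ R := by
    have h1 : ((2 * b * (a - 1) : ℕ) : ℝ) = (1 - 1 / a) * ((2 * a * b : ℕ) : ℝ) := by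
      have : ((a - 1 : ℕ) : ℝ) = (a : ℝ) - 1 := by
        rw [Nat.cast_sub (by omega)]; simp
      push_cast
      rw [this]
      field_simp
    rw [h1, mul_pow]
    refine mul_le_mul_of_nonneg_right ?_ (by positivity)
    have h2 : (0 : ℝ) ≤ 1 - 1 / a := by
      rw [sub_nonneg, div_le_one (by linarith)]
      linarith
    have h3 : (1 : ℝ) - 1 / a ≤ Real.exp (-(1 / a)) := by
      have := Real.add_one_le_exp (-(1 / (a : ℝ)))
      linarith
    refine (pow_le_pow_left₀ h2 h3 R).trans ?_
    rw [← Real.exp_nat_mul, hRR]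
    refine Real.exp_le_exp.2 (le_of_eq ?_)
    field_simp
  have e4 : (a : ℝ) ^ b * (a : ℝ) ^ (2 * b) ≤ Real.exp (3 * l * b) := by
    rw [← pow_add, ha]
    push_cast
    rw [← pow_mul]
    have h2 : (2 : ℝ) ≤ Real.exp 1 := by
      have := Real.add_one_le_exp (1 : ℝ)
      linarith
    calc (2 : ℝ) ^ (l * (b + 2 * b)) ≤ Real.exp 1 ^ (l * (b + 2 * b)) :=
          pow_le_pow_left₀ (by norm_num) h2 _
      _ = Real.exp (3 * l * b) := by
          rw [← Real.exp_nat_mul]
          congr 1
          push_cast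
          ring
  have hpos : (0 : ℝ) < ((2 * a * b : ℕ) : ℝ) ^ R := by
    have : 0 < 2 * a * b := by positivity
    positivity
  have main : (((2 * a * b + 1).choose b * (2 * a * b).choose (2 * b * (a - 1)) *
      (2 * b * (a - 1)) ^ R : ℕ) : ℝ) < (((2 * a * b) ^ R : ℕ) : ℝ) := by
    have c1 : (((2 * a * b + 1).choose b * (2 * a * b).choose (2 * b * (a - 1)) *
        (2 * b * (a - 1)) ^ R : ℕ) : ℝ) = ((2 * a * b + 1).choose b : ℝ) *
        ((2 * a * b).choose (2 * b * (a - 1)) : ℝ) * ((2 * b * (a - 1) : ℕ) : ℝ) ^ R := by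
      push_cast
      rfl
    have c2 : (((2 * a * b) ^ R : ℕ) : ℝ) = ((2 * a * b : ℕ) : ℝ) ^ R := by
      push_cast
      rfl
    rw [c1, c2]
    calc ((2 * a * b + 1).choose b : ℝ) *
        ((2 * a * b).choose (2 * b * (a - 1)) : ℝ) * ((2 * b * (a - 1) : ℕ) : ℝ) ^ R
        ≤ (Real.exp (2 * b + 1 / 2) * (a : ℝ) ^ b) * (Real.exp (2 * b) * (a : ℝ) ^ (2 * b)) *
          (Real.exp (-((5 + 3 * l) * b)) * ((2 * a * b : ℕ) : ℝ) ^ R) := by
          gcongr
      _ = (Real.exp (2 * b + 1 / 2) * Real.exp (2 * b) * Real.exp (-((5 + 3 * l) * b)) *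
            ((a : ℝ) ^ b * (a : ℝ) ^ (2 * b))) * ((2 * a * b : ℕ) : ℝ) ^ R := by ring
      _ ≤ (Real.exp (2 * b + 1 / 2) * Real.exp (2 * b) * Real.exp (-((5 + 3 * l) * b)) *
            Real.exp (3 * l * b)) * ((2 * a * b : ℕ) : ℝ) ^ R := by
          gcongr
      _ < 1 * ((2 * a * b : ℕ) : ℝ) ^ R := by
          refine mul_lt_mul_of_pos_right ?_ hpos
          rw [← Real.exp_add, ← Real.exp_add, ← Real.exp_add, Real.exp_lt_one_iff]
          nlinarith
      _ = ((2 * a * b : ℕ) : ℝ) ^ R := one_mul _
  exact_mod_cast main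

/-- The graphs used. -/
theorem exists_graph {l b : ℕ} (hl : 1 ≤ l) (hb : 1 ≤ b) :
    ∃ t : Fin (2 * 2 ^ l * b + 1) → Fin (2 ^ l * (5 + 3 * l) + 1 + 1) → ZMod (2 * 2 ^ l * b),
      HallOn t (2 * b) ∅ ∅ ∧ Spread t b (2 * b * (2 ^ l - 1)) := by
  have ha2 : 2 ≤ 2 ^ l := by
    calc 2 = 2 ^ 1 := rfl
      _ ≤ 2 ^ l := Nat.pow_le_pow_right (by norm_num) hl
  have hN : 0 < 2 * 2 ^ l * b := by positivity
  have : NeZero (2 * 2 ^ l * b) := ⟨hN.ne'⟩
  obtain ⟨τ, hτ⟩ := exists_spread (P := Fin (2 * 2 ^ l * b + 1)) (H := ZMod (2 * 2 ^ l * b))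
    (r := 2 ^ l * (5 + 3 * l)) (b := b) (y := 2 * b * (2 ^ l - 1))
    (by
      rw [ZMod.card]
      calc 2 * b * (2 ^ l - 1) ≤ 2 * b * 2 ^ l := Nat.mul_le_mul_left _ (Nat.sub_le _ _)
        _ = 2 * 2 ^ l * b := by ring)
    (by rw [Fintype.card_fin]; nlinarith) (by rw [ZMod.card]; exact hN)
    (by rw [ZMod.card, Fintype.card_fin]; exact numeric hl hb)
  refine ⟨_, hall_det τ (B := 2 * b) (by nlinarith), ?_⟩
  intro J Y hJ hY hsub
  refine hτ J Y hJ hY (Subset.trans ?_ hsub)
  intro h hh
  obtain ⟨i, hi, a, rfl⟩ := mem_nbr.1 hh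
  exact mem_nbr.2 ⟨i, hi, a.succ.succ, rfl⟩

end Pool.Agent.Lib.MP_0e79d0_lc.Depth
end

section

/-!
Sparse pigeonhole principles in which every pigeon is encoded by a block of bits, and an adversary
against resolution refutations of bounded depth.
-/

set_option autoImplicit false

namespace Pool.Agent.Lib.MP_0e79d0_lc.Depth

open Finset

section

variable {V P H : Type} [Fintype V] [DecidableEq V] [Fintype P] [DecidableEq P] [DecidableEq H]
variable {q : ℕ}

/-- The symbol written in the block `b`: the number of ones modulo `q + 1`. -/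
def sym (q : ℕ) (b : Finset V) (z : V → Bool) : Fin (q + 1) :=
  ⟨(b.filter fun v => z v = true).card % (q + 1), Nat.mod_lt _ (Nat.succ_pos q)⟩

/-- The hole of the pigeon `i`. -/
def hole (t : P → Fin (q + 1) → H) (B : P → Finset V) (z : V → Bool) (i : P) : H :=
  t i (sym q (B i) z)

/-- The clauses saying that different pigeons have different holes. -/
def php (t : P → Fin (q + 1) → H) (B : P → Finset V) : Set (Finset (V × Bool)) :=
  {C | ∃ i j, i ≠ j ∧ ∃ x : V → Bool, hole t B x i = hole t B x j ∧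
    C = (B i ∪ B j).image fun v => (v, !(x v))}

/-- The variables of the block `b` that do not occur in `D`. -/
def unset (D : Finset (V × Bool)) (b : Finset V) : Finset V :=
  b.filter fun v => (v, true) ∉ D ∧ (v, false) ∉ D

omit [Fintype V] in
lemma unset_anti {D D' : Finset (V × Bool)} (h : D ⊆ D') (b : Finset V) :
    unset D' b ⊆ unset D b := by
  intro v hv
  simp only [unset, mem_filter] at hv ⊢
  exact ⟨hv.1, fun h' => hv.2.1 (h h'), fun h' => hv.2.2 (h h')⟩

omit [Fintype V] [DecidableEq V] in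
lemma sym_congr {b : Finset V} {z z' : V → Bool} (h : ∀ v ∈ b, z v = z' v) :
    sym q b z = sym q b z' := by
  simp only [sym]
  congr 2
  congr 1
  refine filter_congr fun v hv => ?_
  rw [h v hv]

omit [Fintype V] in
/-- `q` free bits suffice to write any symbol. -/
lemma write (b U : Finset V) (hU : U ⊆ b) (hq : U.card = q) (z : V → Bool) (a : Fin (q + 1)) :
    ∃ z' : V → Bool, (∀ v, v ∉ U → z' v = z v) ∧ sym q b z' = a := by
  set c := ((b \ U).filter fun v => z v = true).card with hc
  have hm : (a.1 + q * c) % (q + 1) ≤ U.card := by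
    rw [hq]
    exact Nat.le_of_lt_succ (Nat.mod_lt _ (Nat.succ_pos q))
  obtain ⟨U', hU', hcard⟩ := exists_subset_card_eq hm
  refine ⟨fun v => if v ∈ U then decide (v ∈ U') else z v, fun v hv => by simp [hv], ?_⟩
  have h1 : (b.filter fun v => (if v ∈ U then decide (v ∈ U') else z v) = true) =
      ((b \ U).filter fun v => z v = true) ∪ U' := by
    ext v
    simp only [mem_filter, mem_union, mem_sdiff]
    by_cases hv : v ∈ U
    · simp only [hv, if_true, decide_eq_true_eq, not_true_eq_false, and_false, false_and, false_or,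
        and_iff_right_iff_imp]
      exact fun _ => hU hv
    · have : v ∉ U' := fun h => hv (hU' h)
      simp [hv, this]
  have h2 : Disjoint ((b \ U).filter fun v => z v = true) U' := by
    rw [disjoint_left]
    intro v hv hv'
    exact (mem_sdiff.1 (mem_filter.1 hv).1).2 (hU' hv')
  apply Fin.ext
  simp only [sym]
  rw [h1, card_union_of_disjoint h2, hcard, ← hc, Nat.add_mod_mod]
  have : c + (a.1 + q * c) = a.1 + (q + 1) * c := by ring
  rw [this, Nat.add_mul_mod_self_left, Nat.mod_eq_of_lt a.2]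

/-- The state of the adversary at the line `D` of depth `d`: an assignment `z` that falsifies `D`
and a set `C` of committed pigeons. -/
structure Inv (t : P → Fin (q + 1) → H) (B : P → Finset V) (b u T : ℕ) (α : V → Bool)
    (D : Finset (V × Bool)) (d : ℕ) (z : V → Bool) (C : Finset P) (X : ℕ) : Prop where
  fals : ∀ l ∈ D, z l.1 ≠ l.2
  inj : Set.InjOn (hole t B z) C
  lo : ∀ i ∉ C, q ≤ (unset D (B i)).card
  hi : ∀ i ∈ C, (unset D (B i)).card < u
  hall : HallOn t (2 * b) C (C.image (hole t B z))
  dist : (univ.filter fun v => z v ≠ α v).card ≤ q * X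
  pot : (u - q) * X + ∑ i ∈ Cᶜ, (u - (unset D (B i)).card) + d ≤ T

variable {t : P → Fin (q + 1) → H} {B : P → Finset V} {b u T : ℕ} {α : V → Bool}

/-- Release the pigeons whose blocks have many free variables. -/
lemma Inv.mk' (hqu : q < u) {D : Finset (V × Bool)} {d : ℕ} {z : V → Bool} {C : Finset P} {X : ℕ}
    (fals : ∀ l ∈ D, z l.1 ≠ l.2) (inj : Set.InjOn (hole t B z) C)
    (lo : ∀ i ∉ C, q ≤ (unset D (B i)).card)
    (hall : HallOn t (2 * b) C (C.image (hole t B z)))
    (dist : (univ.filter fun v => z v ≠ α v).card ≤ q * X)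
    (pot : (u - q) * X + ∑ i ∈ Cᶜ, (u - (unset D (B i)).card) + d ≤ T) :
    Inv t B b u T α D d z (C.filter fun i => (unset D (B i)).card < u) X := by
  have hsub : (C.filter fun i => (unset D (B i)).card < u) ⊆ C := filter_subset _ _
  refine ⟨fals, inj.mono (by exact_mod_cast hsub), ?_, ?_, ?_, dist, ?_⟩
  · intro i hi
    by_cases hC : i ∈ C
    · have : ¬ (unset D (B i)).card < u := fun h => hi (mem_filter.2 ⟨hC, h⟩)
      omega
    · exact lo i hC
  · intro i hi
    exact (mem_filter.1 hi).2
  · exact release (f := hole t B z) (fun i => ⟨_, rfl⟩) inj hsub hall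
  · have : ∑ i ∈ Cᶜ, (u - (unset D (B i)).card) =
        ∑ i ∈ (C.filter fun i => (unset D (B i)).card < u)ᶜ, (u - (unset D (B i)).card) := by
      refine sum_subset (compl_subset_compl.2 hsub) ?_
      intro i hi hi'
      have hC : i ∈ C := by simpa using hi'
      have : ¬ (unset D (B i)).card < u := fun h => (mem_compl.1 hi) (mem_filter.2 ⟨hC, h⟩)
      omega
    omega

omit [Fintype V] in
lemma unset_insert_card (D : Finset (V × Bool)) (c : Finset V) (v : V) (x : Bool) :
    (unset D c).card ≤ (unset (insert (v, x) D) c).card + 1 := by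
  have : unset D c ⊆ insert v (unset (insert (v, x) D) c) := by
    intro v' hv'
    by_cases h : v' = v
    · simp [h]
    · refine mem_insert_of_mem ?_
      simp only [unset, mem_filter, mem_insert, Prod.mk.injEq, h, false_and, false_or] at hv' ⊢
      exact hv'
  exact (card_le_card this).trans (card_insert_le _ _)

omit [Fintype V] in
lemma unset_insert_eq {D : Finset (V × Bool)} {c : Finset V} {v : V} (x : Bool)
    (h : v ∉ unset D c) : unset (insert (v, x) D) c = unset D c := by
  refine Subset.antisymm (unset_anti (subset_insert _ _) c) ?_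
  intro v' hv'
  have hne : v' ≠ v := by
    rintro rfl
    exact h hv'
  simp only [unset, mem_filter, mem_insert, Prod.mk.injEq, hne, false_and, false_or] at hv' ⊢
  exact hv'

/-- One resolution step. -/
lemma Inv.move (hqu : q < u) (hB : ∀ i j, i ≠ j → Disjoint (B i) (B j))
    {D D' : Finset (V × Bool)} {d d' : ℕ} {z : V → Bool} {C : Finset P} {X : ℕ}
    (fals : ∀ l ∈ D, z l.1 ≠ l.2) (inj : Set.InjOn (hole t B z) C)
    (lo : ∀ i ∉ C, q ≤ (unset D (B i)).card)
    (hall : HallOn t (2 * b) C (C.image (hole t B z)))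
    (dist : (univ.filter fun v => z v ≠ α v).card ≤ q * X)
    (pot : (u - q) * X + ∑ i ∈ Cᶜ, (u - (unset D (B i)).card) + d ≤ T)
    {v : V} {x : Bool} (hv : ∀ i ∉ C, v ∈ unset D (B i) → (unset D (B i)).card ≠ q)
    (hx : z v ≠ x) (hd : d' < d) (hD' : D' ⊆ insert (v, x) D) :
    Inv t B b u T α D' d' z (C.filter fun i => (unset D' (B i)).card < u) X := by
  have hmono : ∀ i, (unset (insert (v, x) D) (B i)).card ≤ (unset D' (B i)).card :=
    fun i => card_le_card (unset_anti hD' _)
  refine Inv.mk' hqu ?_ inj ?_ hall dist ?_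
  · intro l hl
    rcases mem_insert.1 (hD' hl) with rfl | hl
    · exact hx
    · exact fals l hl
  · intro i hi
    refine le_trans ?_ (hmono i)
    by_cases hvi : v ∈ unset D (B i)
    · have h1 := hv i hi hvi
      have h2 := lo i hi
      have h3 := unset_insert_card D (B i) v x
      omega
    · rw [unset_insert_eq x hvi]
      exact lo i hi
  · have hsum : ∑ i ∈ Cᶜ, (u - (unset D' (B i)).card) ≤
        ∑ i ∈ Cᶜ, (u - (unset D (B i)).card) + 1 := by
      by_cases hex : ∃ i₀ ∈ Cᶜ, v ∈ unset D (B i₀)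
      · obtain ⟨i₀, hi₀, hvi⟩ := hex
        rw [← add_sum_erase _ _ hi₀, ← add_sum_erase _ _ hi₀]
        have h1 : u - (unset D' (B i₀)).card ≤ u - (unset D (B i₀)).card + 1 := by
          have h3 := unset_insert_card D (B i₀) v x
          have h4 := hmono i₀
          omega
        have h2 : ∑ i ∈ Cᶜ.erase i₀, (u - (unset D' (B i)).card) ≤
            ∑ i ∈ Cᶜ.erase i₀, (u - (unset D (B i)).card) := by
          refine sum_le_sum fun i hi => ?_
          have hne : i ≠ i₀ := (mem_erase.1 hi).1
          have hvn : v ∉ unset D (B i) := by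
            intro h'
            exact disjoint_left.1 (hB i i₀ hne) (mem_filter.1 h').1 (mem_filter.1 hvi).1
          have h4 := hmono i
          rw [unset_insert_eq x hvn] at h4
          omega
        omega
      · push Not at hex
        refine (sum_le_sum fun i hi => ?_).trans (Nat.le_succ _)
        have h4 := hmono i
        rw [unset_insert_eq x (hex i hi)] at h4
        omega
    omega

/-- Commit the pigeon whose block becomes tight. -/
lemma Inv.commit (hb : 1 ≤ b) {y : ℕ} (hs : Spread t b y)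
    (hB : ∀ i j, i ≠ j → Disjoint (B i) (B j))
    {D : Finset (V × Bool)} {d : ℕ} {z : V → Bool} {C : Finset P} {X : ℕ}
    (hI : Inv t B b u T α D d z C X) (hC : C.card + 2 * b ≤ y) {i₀ : P} (hi₀ : i₀ ∉ C)
    (hcard : (unset D (B i₀)).card = q) :
    ∃ z' : V → Bool, (∀ l ∈ D, z' l.1 ≠ l.2) ∧
      Set.InjOn (hole t B z') (insert i₀ C : Finset P) ∧
      HallOn t (2 * b) (insert i₀ C) ((insert i₀ C).image (hole t B z')) ∧
      (univ.filter fun v => z' v ≠ α v).card ≤ q * (X + 1) ∧
      (u - q) * (X + 1) + ∑ i ∈ (insert i₀ C)ᶜ, (u - (unset D (B i)).card) + d ≤ T := by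
  have hcO : (C.image (hole t B z)).card + 2 * b ≤ y := by
    have := card_image_le (s := C) (f := hole t B z)
    omega
  obtain ⟨a, ha, hhall⟩ := Depth.commit hb hs hcO hI.hall hi₀
  obtain ⟨z', hz', hsym⟩ := write (B i₀) (unset D (B i₀)) (filter_subset _ _) hcard z a
  have hsame : ∀ i, i ≠ i₀ → hole t B z' i = hole t B z i := by
    intro i hi
    simp only [hole]
    congr 1
    refine sym_congr fun v hv => hz' v fun hv' => ?_
    exact disjoint_left.1 (hB i i₀ hi) hv (mem_filter.1 hv').1
  have hnew : hole t B z' i₀ = t i₀ a := by simp only [hole, hsym]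
  have himg : (insert i₀ C).image (hole t B z') = insert (t i₀ a) (C.image (hole t B z)) := by
    rw [image_insert, hnew]
    congr 1
    refine image_congr ?_
    intro i hi
    exact hsame i (fun h => hi₀ (h ▸ hi))
  refine ⟨z', ?_, ?_, ?_, ?_, ?_⟩
  · intro l hl
    rw [hz' l.1 ?_]
    · exact hI.fals l hl
    · intro h
      obtain ⟨-, h1, h2⟩ := mem_filter.1 h
      rcases l with ⟨v, x⟩
      cases x
      · exact h2 hl
      · exact h1 hl
  · rw [coe_insert, Set.injOn_insert (by exact_mod_cast hi₀)]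
    constructor
    · intro i hi j hj hij
      rw [hsame i (fun h => hi₀ (h ▸ hi)), hsame j (fun h => hi₀ (h ▸ hj))] at hij
      exact hI.inj hi hj hij
    · rintro ⟨i, hi, hij⟩
      rw [hnew, hsame i (fun h => hi₀ (h ▸ hi))] at hij
      exact ha (hij ▸ mem_image_of_mem _ (mem_coe.1 hi))
  · rw [himg]
    exact hhall
  · have hsub : (univ.filter fun v => z' v ≠ α v) ⊆
        (univ.filter fun v => z v ≠ α v) ∪ unset D (B i₀) := by
      intro v hv
      by_cases h : v ∈ unset D (B i₀)
      · exact mem_union_right _ h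
      · refine mem_union_left _ (mem_filter.2 ⟨mem_univ _, ?_⟩)
        rw [← hz' v h]
        exact (mem_filter.1 hv).2
    calc (univ.filter fun v => z' v ≠ α v).card
        ≤ (univ.filter fun v => z v ≠ α v).card + (unset D (B i₀)).card :=
          (card_le_card hsub).trans (card_union_le _ _)
      _ ≤ q * X + q := by rw [hcard]; exact Nat.add_le_add_right hI.dist _
      _ = q * (X + 1) := by ring
  · have h1 : ∑ i ∈ Cᶜ, (u - (unset D (B i)).card) =
        (u - q) + ∑ i ∈ (insert i₀ C)ᶜ, (u - (unset D (B i)).card) := by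
      have : (insert i₀ C)ᶜ = Cᶜ.erase i₀ := by
        ext i
        simp
      rw [this, ← add_sum_erase _ _ (mem_compl.2 hi₀), hcard]
    have h2 := hI.pot
    rw [h1] at h2
    have h3 : (u - q) * (X + 1) = (u - q) * X + (u - q) := by ring
    omega

/-- The adversary: from every assignment `α` one reaches a long line falsified by an assignment
close to `α`. -/
theorem adversary (hb : 1 ≤ b) {y c s : ℕ} (hs : Spread t b y) (hall : HallOn t (2 * b) ∅ ∅)
    (hc : c + 2 * b ≤ y) (hq : 1 ≤ q) (hqu : q < u) (hus : u ≤ s)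
    (hB : ∀ i j, i ≠ j → Disjoint (B i) (B j)) (hBs : ∀ i, (B i).card = s)
    (R : Refutation (php t B)) (hT : ∀ i, R.depth i ≤ T) (α : V → Bool) :
    ∃ i, ∃ z : V → Bool, (∀ l ∈ R.line i, z l.1 ≠ l.2) ∧
      (c + 1) * (s - u + 1) ≤ (R.line i).card ∧
      (u - q) * (univ.filter fun v => z v ≠ α v).card ≤ q * T := by
  -- the statement for all states at the line `i`
  have main : ∀ i, ∀ z C X, Inv t B b u T α (R.line i) (R.depth i) z C X →
      ∃ i, ∃ z : V → Bool, (∀ l ∈ R.line i, z l.1 ≠ l.2) ∧
      (c + 1) * (s - u + 1) ≤ (R.line i).card ∧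
      (u - q) * (univ.filter fun v => z v ≠ α v).card ≤ q * T := by
    intro i
    induction i using WellFoundedLT.induction with
    | _ i ih =>
    intro z C X hI
    rcases Nat.lt_or_ge c C.card with hC | hC
    · -- enough committed pigeons
      refine ⟨i, z, hI.fals, ?_, ?_⟩
      · -- the committed blocks are nearly fully set
        have hset : ∀ j ∈ C, s - u + 1 ≤ ((B j).filter fun v =>
            (v, true) ∈ R.line i ∨ (v, false) ∈ R.line i).card := by
          intro j hj
          have h1 := hI.hi j hj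
          have h2 : (unset (R.line i) (B j)).card + ((B j).filter fun v =>
              (v, true) ∈ R.line i ∨ (v, false) ∈ R.line i).card = s := by
            rw [← hBs j, ← card_filter_add_card_filter_not (s := B j)
              (p := fun v => (v, true) ∉ R.line i ∧ (v, false) ∉ R.line i)]
            congr 2
            refine filter_congr fun v _ => ?_
            tauto
          omega
        have hdisj : ∀ j ∈ C, ∀ j' ∈ C, j ≠ j' → Disjoint
            ((B j).filter fun v => (v, true) ∈ R.line i ∨ (v, false) ∈ R.line i)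
            ((B j').filter fun v => (v, true) ∈ R.line i ∨ (v, false) ∈ R.line i) := by
          intro j _ j' _ hne
          exact disjoint_filter_filter (hB j j' hne)
        calc (c + 1) * (s - u + 1) ≤ C.card * (s - u + 1) := Nat.mul_le_mul_right _ hC
          _ = ∑ j ∈ C, (s - u + 1) := by rw [sum_const, smul_eq_mul]
          _ ≤ ∑ j ∈ C, ((B j).filter fun v =>
                (v, true) ∈ R.line i ∨ (v, false) ∈ R.line i).card := sum_le_sum hset
          _ = (C.biUnion fun j => (B j).filter fun v =>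
                (v, true) ∈ R.line i ∨ (v, false) ∈ R.line i).card :=
              (card_biUnion hdisj).symm
          _ ≤ ((R.line i).image Prod.fst).card := by
              refine card_le_card fun v hv => ?_
              rw [mem_biUnion] at hv
              obtain ⟨j, -, hj⟩ := hv
              rcases (mem_filter.1 hj).2 with h | h
              · exact mem_image.2 ⟨_, h, rfl⟩
              · exact mem_image.2 ⟨_, h, rfl⟩
          _ ≤ (R.line i).card := card_image_le
      · have h1 : (u - q) * X ≤ T := by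
          have := hI.pot
          omega
        calc (u - q) * (univ.filter fun v => z v ≠ α v).card ≤ (u - q) * (q * X) :=
              Nat.mul_le_mul_left _ hI.dist
          _ = q * ((u - q) * X) := by ring
          _ ≤ q * T := Nat.mul_le_mul_left _ h1
    · rcases R.step i with ⟨Cl, ⟨j, l, hjl, x, hx, rfl⟩, hCl⟩ | ⟨j, hj, hd, hsub⟩ |
        ⟨j, l, v, hj, hl, hdj, hdl, hsj, hsl⟩
      · -- a clause of the formula
        exfalso
        have hfull : ∀ p, B p ⊆ B j ∪ B l → p ∈ C := by
          intro p hp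
          by_contra hpC
          have h1 := hI.lo p hpC
          have h2 : unset (R.line i) (B p) = ∅ := by
            rw [eq_empty_iff_forall_notMem]
            intro v hv
            obtain ⟨hvp, h3, h4⟩ := mem_filter.1 hv
            have h5 : (v, !(x v)) ∈ R.line i := hCl (mem_image.2 ⟨v, hp hvp, rfl⟩)
            cases hxv : x v
            · rw [hxv] at h5
              exact h3 h5
            · rw [hxv] at h5
              exact h4 h5
          rw [h2, card_empty] at h1
          omega
        have heq : ∀ p, B p ⊆ B j ∪ B l → hole t B z p = hole t B x p := by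
          intro p hp
          simp only [hole]
          congr 1
          refine sym_congr fun v hv => ?_
          have h5 : (v, !(x v)) ∈ R.line i := hCl (mem_image.2 ⟨v, hp hv, rfl⟩)
          have h6 := hI.fals _ h5
          simpa using h6
        refine hjl (hI.inj (hfull j subset_union_left) (hfull l subset_union_right) ?_)
        rw [heq j subset_union_left, heq l subset_union_right, hx]
      · -- weakening
        refine ih j hj z _ X (Inv.mk' hqu (fun l hl => hI.fals l (hsub hl)) hI.inj ?_ hI.hall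
          hI.dist ?_)
        · intro p hp
          exact (hI.lo p hp).trans (card_le_card (unset_anti hsub _))
        · have h1 : ∑ p ∈ Cᶜ, (u - (unset (R.line j) (B p)).card) ≤
              ∑ p ∈ Cᶜ, (u - (unset (R.line i) (B p)).card) := by
            refine sum_le_sum fun p _ => ?_
            have := card_le_card (unset_anti hsub (B p))
            omega
          have h2 := hI.pot
          omega
      · -- resolution on `v`
        have fin : ∀ (z : V → Bool) (C : Finset P) (X : ℕ), (∀ l ∈ R.line i, z l.1 ≠ l.2) →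
            Set.InjOn (hole t B z) C →
            (∀ p ∉ C, q ≤ (unset (R.line i) (B p)).card) →
            HallOn t (2 * b) C (C.image (hole t B z)) →
            (univ.filter fun v => z v ≠ α v).card ≤ q * X →
            (u - q) * X + ∑ p ∈ Cᶜ, (u - (unset (R.line i) (B p)).card) + R.depth i ≤ T →
            (∀ p ∉ C, v ∈ unset (R.line i) (B p) → (unset (R.line i) (B p)).card ≠ q) →
            ∃ i, ∃ z : V → Bool, (∀ l ∈ R.line i, z l.1 ≠ l.2) ∧
              (c + 1) * (s - u + 1) ≤ (R.line i).card ∧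
              (u - q) * (univ.filter fun v => z v ≠ α v).card ≤ q * T := by
          intro z C X h1 h2 h3 h4 h5 h6 h7
          cases hzv : z v
          · exact ih j hj z _ X (Inv.move hqu hB h1 h2 h3 h4 h5 h6 h7 (x := true)
              (by rw [hzv]; simp) hdj hsj)
          · exact ih l hl z _ X (Inv.move hqu hB h1 h2 h3 h4 h5 h6 h7 (x := false)
              (by rw [hzv]; simp) hdl hsl)
        by_cases hex : ∃ p, p ∉ C ∧ v ∈ unset (R.line i) (B p) ∧
            (unset (R.line i) (B p)).card = q
        · obtain ⟨p, hp, hvp, hcard⟩ := hex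
          obtain ⟨z', h1, h2, h3, h4, h5⟩ := hI.commit hb hs hB (by omega) hp hcard
          refine fin z' (insert p C) (X + 1) h1 h2 ?_ h3 h4 h5 ?_
          · intro p' hp'
            exact hI.lo p' (fun h => hp' (mem_insert_of_mem h))
          · intro p' hp' hv' _
            have hne : p' ≠ p := fun h => hp' (h ▸ mem_insert_self _ _)
            exact disjoint_left.1 (hB p' p hne) (mem_filter.1 hv').1 (mem_filter.1 hvp).1
        · push Not at hex
          exact fin z C X hI.fals hI.inj hI.lo hI.hall hI.dist hI.pot hex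
  obtain ⟨i, hi⟩ := R.refutes
  refine main i α ∅ 0 ⟨?_, ?_, ?_, ?_, ?_, ?_, ?_⟩
  · rw [hi]
    intro l hl
    exact absurd hl (notMem_empty _)
  · intro i hi
    simp at hi
  · intro p _
    rw [hi]
    have : unset (∅ : Finset (V × Bool)) (B p) = B p := by
      simp [unset]
    rw [this, hBs]
    omega
  · intro p hp
    exact absurd hp (notMem_empty _)
  · simpa using hall
  · simp
  · have : ∀ p, u - (unset (R.line i) (B p)).card = 0 := by
      intro p
      rw [hi]
      have : unset (∅ : Finset (V × Bool)) (B p) = B p := by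
        simp [unset]
      rw [this, hBs]
      omega
    rw [sum_congr rfl fun p _ => this p]
    simpa using hT i

end

end Pool.Agent.Lib.MP_0e79d0_lc.Depth
end

section

/-!
The lower bound with explicit parameters.
-/

set_option autoImplicit false

namespace Pool.Agent.Lib.MP_0e79d0_lc.Depth

open Finset

/-- The blocks of variables. -/
def block {M s n : ℕ} (h : M * s ≤ n) (i : Fin M) : Finset (Fin n) :=
  (univ : Finset (Fin s)).image fun j : Fin s => (⟨i * s + j, by
    have h1 : (i : ℕ) + 1 ≤ M := i.2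
    have h2 : ((i : ℕ) + 1) * s ≤ M * s := Nat.mul_le_mul_right s h1
    have h3 := j.2
    have h4 : ((i : ℕ) + 1) * s = i * s + s := by ring
    omega⟩ : Fin n)

lemma block_card {M s n : ℕ} (h : M * s ≤ n) (i : Fin M) : (block h i).card = s := by
  rw [block, card_image_of_injective]
  · simp
  · intro j j' hj
    simp only [Fin.mk.injEq] at hj
    exact Fin.ext (by omega)

lemma block_disjoint {M s n : ℕ} (h : M * s ≤ n) {i j : Fin M} (hij : i ≠ j) :
    Disjoint (block h i) (block h j) := by
  rw [disjoint_left]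
  intro v hv hv'
  obtain ⟨x, -, hx⟩ := mem_image.1 hv
  obtain ⟨y, -, hy⟩ := mem_image.1 hv'
  have h1 : (i : ℕ) * s + x = (j : ℕ) * s + y := by
    have := hx.trans hy.symm
    simpa only [Fin.mk.injEq] using this
  have hs : 0 < s := lt_of_le_of_lt (Nat.zero_le _) x.2
  have h2 : ((i : ℕ) * s + x) / s = i := by
    rw [mul_comm, Nat.mul_add_div hs, Nat.div_eq_of_lt x.2, add_zero]
  have h3 : ((j : ℕ) * s + y) / s = j := by
    rw [mul_comm, Nat.mul_add_div hs, Nat.div_eq_of_lt y.2, add_zero]
  apply hij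
  apply Fin.ext
  rw [← h2, ← h3, h1]

section

variable {V P H : Type} [Fintype V] [DecidableEq V] [Fintype P] [DecidableEq P] [Fintype H]
  [DecidableEq H]
variable {q : ℕ}

omit [Fintype V] [DecidableEq P] [DecidableEq H] in
lemma php_unsat (t : P → Fin (q + 1) → H) (B : P → Finset V)
    (hc : Fintype.card H < Fintype.card P) (z : V → Bool) :
    ∃ C ∈ php t B, ∀ l ∈ C, z l.1 ≠ l.2 := by
  obtain ⟨i, j, hij, h⟩ := Fintype.exists_ne_map_eq_of_card_lt (hole t B z) hc
  refine ⟨_, ⟨i, j, hij, z, h, rfl⟩, ?_⟩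
  intro l hl
  obtain ⟨v, -, rfl⟩ := mem_image.1 hl
  simp

omit [Fintype V] [Fintype P] [DecidableEq P] [Fintype H] [DecidableEq H] in
lemma php_width (t : P → Fin (q + 1) → H) (B : P → Finset V) {s : ℕ} (hs : ∀ i, (B i).card = s)
    {C : Finset (V × Bool)} (hC : C ∈ php t B) : C.card ≤ 2 * s := by
  obtain ⟨i, j, -, x, -, rfl⟩ := hC
  refine card_image_le.trans ((card_union_le _ _).trans ?_)
  rw [hs, hs]
  omega

end

/-- The final computation. -/
lemma final {a l n p s b S : ℕ} (haR' : (2 : ℝ) ^ l = a) (htriv : 6 < a)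
    (hs : s = a * p) (hNs : (2 * a * b + 1) * s ≤ n) (hns2 : n < (2 * a * b + 2 * a + 1) * s)
    (hn : 2 * a * (2 * a + 1) * s ≤ n)
    (hcount : (2 : ℝ) ^ ((2 * b * (a - 2)) * (p * (a - 1))) ≤
      S * ((1 + 1 / (a : ℝ)) ^ ((2 * b * (a - 2)) * (p * (a - 1))) * (a : ℝ) ^ (n / (a * l)))) :
    (2 : ℝ) ^ ((1 - 6 / a) * n : ℝ) ≤ S := by
  set W : ℕ := (2 * b * (a - 2)) * (p * (a - 1)) with hW
  set E : ℕ := n / (a * l) with hE
  have haR6 : (7 : ℝ) ≤ a := by exact_mod_cast htriv
  have ha0 : (0 : ℝ) < a := by linarith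
  have hn0 : (0 : ℝ) ≤ n := Nat.cast_nonneg _
  -- the width of the lines
  have hWR : (W : ℝ) = 2 * b * p * ((a - 2) * (a - 1)) := by
    rw [hW]
    push_cast [Nat.cast_sub (show 2 ≤ a by omega), Nat.cast_sub (show 1 ≤ a by omega)]
    ring
  have hsR : (s : ℝ) = a * p := by rw [hs]; push_cast; ring
  have hWn : (W : ℝ) ≤ n := by
    have h1 : (((2 * a * b + 1) * s : ℕ) : ℝ) ≤ n := by exact_mod_cast hNs
    push_cast at h1
    rw [hsR] at h1
    rw [hWR]
    have h2 : (0 : ℝ) ≤ b * p := by positivity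
    nlinarith [mul_nonneg h2 (show (0 : ℝ) ≤ 3 * a - 2 by linarith),
      mul_nonneg ha0.le (Nat.cast_nonneg (α := ℝ) p)]
  have hslack : (2 * a + 1) * (s : ℝ) ≤ n / (2 * a) := by
    rw [le_div_iff₀ (by linarith)]
    have h1 : ((2 * a * (2 * a + 1) * s : ℕ) : ℝ) ≤ n := by exact_mod_cast hn
    push_cast at h1
    nlinarith
  have hWlow : (n : ℝ) * (1 - 3 / a) - (2 * a + 1) * s ≤ W := by
    have h1 : (n : ℝ) ≤ (2 * a * b + 2 * a + 1) * s := by
      have : ((n : ℕ) : ℝ) ≤ (((2 * a * b + 2 * a + 1) * s : ℕ) : ℝ) := by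
        exact_mod_cast hns2.le
      push_cast at this
      linarith
    have h2 : (0 : ℝ) ≤ 1 - 3 / a := by
      rw [sub_nonneg, div_le_one ha0]
      linarith
    have h3 : (1 : ℝ) - 3 / a ≤ 1 := by
      have : (0 : ℝ) ≤ 3 / a := by positivity
      linarith
    have h4 : (n : ℝ) * (1 - 3 / a) ≤ 2 * a * b * s * (1 - 3 / a) + (2 * a + 1) * s := by
      have h5 := mul_le_mul_of_nonneg_right h1 h2
      have h6 : (2 * a + 1) * (s : ℝ) * (1 - 3 / a) ≤ (2 * a + 1) * s := by
        have : (0 : ℝ) ≤ (2 * a + 1) * s := by positivity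
        nlinarith
      nlinarith
    have h5 : 2 * a * b * (s : ℝ) * (1 - 3 / a) ≤ W := by
      rw [hWR, hsR]
      have h6 : 2 * a * b * ((a : ℝ) * p) * (1 - 3 / a) = 2 * b * p * (a * (a - 3)) := by
        field_simp
      rw [h6]
      have h7 : (0 : ℝ) ≤ b * p := by positivity
      nlinarith
    linarith
  -- the losses
  have hexp : ∀ x : ℝ, 0 ≤ x → Real.exp x ≤ (2 : ℝ) ^ (3 / 2 * x) := by
    intro x hx
    rw [Real.rpow_def_of_pos (by norm_num)]
    refine Real.exp_le_exp.2 ?_
    have := Real.log_two_gt_d9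
    nlinarith
  have hloss1 : (1 + 1 / (a : ℝ)) ^ W ≤ (2 : ℝ) ^ (3 / 2 * (n / a) : ℝ) := by
    have h1 : (1 + 1 / (a : ℝ)) ^ W ≤ Real.exp (W / a) := by
      have := pow_le_pow_left₀ (by positivity) (Real.add_one_le_exp (1 / (a : ℝ))) W
      rw [← Real.exp_nat_mul, mul_one_div, add_comm] at this
      exact this
    refine h1.trans ((hexp _ (by positivity)).trans ?_)
    refine Real.rpow_le_rpow_of_exponent_le (by norm_num) ?_
    gcongr
  have hloss2 : (a : ℝ) ^ E ≤ (2 : ℝ) ^ (n / a : ℝ) := by
    rw [← haR', ← pow_mul, ← Real.rpow_natCast]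
    refine Real.rpow_le_rpow_of_exponent_le (by norm_num) ?_
    rw [haR', le_div_iff₀ ha0]
    have : l * E * a ≤ n := by
      rw [hE]
      calc l * (n / (a * l)) * a = (n / (a * l)) * (a * l) := by ring
        _ ≤ n := Nat.div_mul_le_self _ _
    exact_mod_cast this
  have h1 : (2 : ℝ) ^ (W : ℝ) ≤ S * ((2 : ℝ) ^ (3 / 2 * (n / a) + n / a : ℝ)) := by
    rw [Real.rpow_natCast]
    refine hcount.trans (mul_le_mul_of_nonneg_left ?_ (Nat.cast_nonneg _))
    rw [Real.rpow_add (by norm_num)]
    exact mul_le_mul hloss1 hloss2 (by positivity) (by positivity)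
  have h2 : (2 : ℝ) ^ ((W : ℝ) - (3 / 2 * (n / a) + n / a)) ≤ S := by
    rw [Real.rpow_sub (by norm_num), div_le_iff₀ (by positivity)]
    exact h1
  refine le_trans (Real.rpow_le_rpow_of_exponent_le (by norm_num) ?_) h2
  have h3 : (n : ℝ) / (2 * a) = 1 / 2 * (n / a) := by field_simp
  have h4 : (1 - 6 / (a : ℝ)) * n = n - 6 * (n / a) := by field_simp
  have h5 : (n : ℝ) * (1 - 3 / a) = n - 3 * (n / a) := by field_simp
  rw [h3] at hslack
  rw [h5] at hWlow
  rw [h4]
  linarith

/-- The lower bound with `a = 2 ^ l`. -/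
theorem core {l K n : ℕ} (hl : 1 ≤ l) (hK : 1 ≤ K)
    (hn : 2 * 2 ^ l * (2 * 2 ^ l + 1) * (2 ^ l * (18 * (2 ^ l) ^ 2 * l ^ 2 * K)) ≤ n) :
    ∃ F : Set (Finset (Fin n × Bool)),
      (∀ C ∈ F, C.card ≤ 36 * 8 ^ l * l ^ 2 * K) ∧
      (∀ z : Fin n → Bool, ∃ C ∈ F, ∀ x ∈ C, z x.1 ≠ x.2) ∧
      ∀ R : Refutation F, (∀ i, R.depth i ≤ K * n) →
        (2 : ℝ) ^ ((1 - 6 / 2 ^ l) * n : ℝ) ≤ R.size := by
  set a : ℕ := 2 ^ l with ha
  have ha2 : 2 ≤ a := by
    rw [ha]
    calc 2 = 2 ^ 1 := rfl
      _ ≤ 2 ^ l := Nat.pow_le_pow_right (by norm_num) hl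
  set p : ℕ := 18 * a ^ 2 * l ^ 2 * K with hp
  set s : ℕ := a * p with hs
  have hp0 : 0 < p := by positivity
  have hs0 : 0 < s := by positivity
  -- the number of holes
  set b : ℕ := (n / s - 1) / (2 * a) with hb
  have hns : 2 * a * (2 * a + 1) ≤ n / s := by
    rw [Nat.le_div_iff_mul_le hs0]
    exact hn
  have hb1 : 1 ≤ b := by
    rw [hb, Nat.le_div_iff_mul_le (by positivity)]
    have : 2 * a + 1 ≤ 2 * a * (2 * a + 1) := Nat.le_mul_of_pos_left _ (by positivity)
    omega
  have hbn : 2 * a * b ≤ n / s - 1 := by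
    rw [hb]
    exact Nat.mul_div_le _ _
  have hpos : 1 ≤ n / s := le_trans (by nlinarith) hns
  have hNs : (2 * a * b + 1) * s ≤ n := by
    calc (2 * a * b + 1) * s ≤ (n / s) * s := Nat.mul_le_mul_right _ (by omega)
      _ ≤ n := Nat.div_mul_le_self _ _
  have hns2 : n < (2 * a * b + 2 * a + 1) * s := by
    have h1 : n / s - 1 < 2 * a * (b + 1) := by
      rw [hb]
      have := Nat.lt_mul_div_succ (n / s - 1) (show 0 < 2 * a by positivity)
      simpa using this
    have h2 : n / s < 2 * a * b + 2 * a + 1 := by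
      have : 2 * a * (b + 1) = 2 * a * b + 2 * a := by ring
      omega
    exact (Nat.div_lt_iff_lt_mul hs0).1 h2
  -- the graph
  have hgraph := exists_graph (l := l) (b := b) hl hb1
  rw [← ha] at hgraph
  obtain ⟨t, hall, hspread⟩ := hgraph
  have hN : NeZero (2 * a * b) := ⟨by positivity⟩
  let B : Fin (2 * a * b + 1) → Finset (Fin n) := block hNs
  have hB : ∀ i j, i ≠ j → Disjoint (B i) (B j) := fun i j hij => block_disjoint hNs hij
  have hBs : ∀ i, (B i).card = s := block_card hNs
  refine ⟨php t B, ?_, ?_, ?_⟩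
  · intro C hC
    refine (php_width t B hBs hC).trans (le_of_eq ?_)
    rw [hs, hp, ha]
    have : (8 : ℕ) ^ l = (2 ^ l) ^ 3 := by
      rw [← pow_mul, mul_comm, pow_mul]
      norm_num
    rw [this]
    ring
  · intro z
    refine php_unsat t B ?_ z
    rw [ZMod.card, Fintype.card_fin]
    exact Nat.lt_succ_self _
  · intro R hR
    have hsize : (1 : ℝ) ≤ R.size := by
      obtain ⟨i, -⟩ := R.refutes
      have : 0 < R.size := lt_of_le_of_lt (Nat.zero_le _) i.2
      exact_mod_cast this
    have haR : (2 : ℝ) ≤ a := by exact_mod_cast ha2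
    have haR' : (2 : ℝ) ^ l = a := by rw [ha]; push_cast; rfl
    rw [haR']
    -- trivial case
    by_cases htriv : a ≤ 6
    · have h6 : (a : ℝ) ≤ 6 := by exact_mod_cast htriv
      have h1 : (1 - 6 / (a : ℝ)) * n ≤ 0 := by
        refine mul_nonpos_of_nonpos_of_nonneg ?_ (Nat.cast_nonneg _)
        rw [sub_nonpos, le_div_iff₀ (by linarith)]
        linarith
      exact (Real.rpow_le_one_of_one_le_of_nonpos (by norm_num) h1).trans hsize
    push Not at htriv
    -- parameters
    have hq9 : a * (5 + 3 * l) + 1 ≤ 9 * a * l := by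
      have h1 : a * 5 ≤ a * (5 * l) := Nat.mul_le_mul_left _ (by omega)
      have h2 : 1 ≤ a * l := Nat.mul_pos (by omega) (by omega)
      nlinarith
    have h2q : 2 * (9 * a * l) ≤ p := by
      rw [hp]
      calc 2 * (9 * a * l) = 18 * (a * l) := by ring
        _ ≤ 18 * (a * l) * (a * l * K) := Nat.le_mul_of_pos_right _ (by positivity)
        _ = 18 * a ^ 2 * l ^ 2 * K := by ring
    have hps : p ≤ s := by
      rw [hs]
      exact Nat.le_mul_of_pos_left _ (by omega)
    have hadv := adversary (t := t) (B := B) (b := b) (u := p) (T := K * n) hb1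
      (y := 2 * b * (a - 1)) (c := 2 * b * (a - 2)) (s := s) hspread hall
      (by
        obtain ⟨a', ha'⟩ : ∃ a', a = a' + 2 := ⟨a - 2, by omega⟩
        rw [ha']
        simp only [Nat.add_sub_cancel, Nat.add_succ_sub_one]
        nlinarith) (Nat.succ_pos _) (by omega) hps hB hBs R hR
    have hcount := counting R (a := (a : ℝ)) (by linarith)
      (W := (2 * b * (a - 2)) * (p * (a - 1))) (E := n / (a * l)) (by
        intro α
        obtain ⟨i, z, hz, hW, hE⟩ := hadv α
        refine ⟨i, z, hz, le_trans ?_ hW, ?_⟩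
        · refine Nat.mul_le_mul (Nat.le_succ _) ?_
          rw [hs, mul_comm p, Nat.sub_mul, one_mul]
          exact Nat.le_succ _
        · rw [Nat.le_div_iff_mul_le (by positivity)]
          set dz := (univ.filter fun v => z v ≠ α v).card with hdz
          set q := a * (5 + 3 * l) + 1 with hq
          have h1 : p * dz ≤ 2 * ((p - q) * dz) := by
            rw [← mul_assoc]
            exact Nat.mul_le_mul_right _ (by omega)
          have h2 : p * dz ≤ 2 * (9 * a * l * (K * n)) := by
            refine h1.trans (Nat.mul_le_mul_left _ (hE.trans (Nat.mul_le_mul_right _ hq9)))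
          rw [hp] at h2
          have h3 : (18 * (a * l) * K) * (dz * (a * l)) ≤ (18 * (a * l) * K) * n := by
            calc (18 * (a * l) * K) * (dz * (a * l)) = 18 * a ^ 2 * l ^ 2 * K * dz := by ring
              _ ≤ 2 * (9 * a * l * (K * n)) := h2
              _ = (18 * (a * l) * K) * n := by ring
          exact Nat.le_of_mul_le_mul_left h3 (by positivity))
    exact final haR' htriv hs hNs hns2 hn hcount

end Pool.Agent.Lib.MP_0e79d0_lc.Depth
end
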